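import Mathlib
import Pool.Agent.Run7.h25.TV.Fin
import Pool.Agent.Run7.h25.TV.Stab

/-!
# Dense subgroups of `SL (n, ℤ)` and the stabilisers of the centres of transvections

Let `n ≥ 3` and let `H` be a subgroup of `SL (n, ℤ)` with elements `u, g` such that no nontrivial
power of `g` is a power of `u`. Assume that `u = 1 + v ⊗ φ` is a transvection and `φ (g v) = 0`, that
is `g` maps the centre `v` of `u` into its axis `ker φ` (for instance `g` commutes with `u`, or `g`
preserves the line of `v` or the hyperplane `ker φ`), or that `n = 3`, `u ≠ 1` is unipotent and `g`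
commutes with `u`. If `H` is Zariski dense then it has finite index in `SL (n, ℤ)`; if `H` is dense
in the profinite topology then `H = SL (n, ℤ)`.

Idea of the proof. (1) Suppose first that `g` commutes with `u`; replacing `g` by a power one has
`g v = v` and `φ g = φ`. For `k` in `H` let `A = φ (k v)`, `B = φ (k⁻¹ v)` be different from `0` and
let `g ^ m` be congruent to `1` modulo `A B`. Then `φ (k g ^ m k⁻¹ v)` is congruent to `φ (v) = 0`
modulo `A B`, say equal to `A B d`, and `x = k g ^ m u ^ (-d) k⁻¹` satisfies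
`φ (x v) = A B d - d A B = 0`. By Zariski density `k` can be chosen such that `x v` is not parallel
to `v`, unless a power of `g` is of the form `1 + v ⊗ ρ`. (2) Let `x` in `H` satisfy `φ (x v) = 0`,
with `x v` not parallel to `v`. If `φ (x⁻¹ v) ≠ 0`, the commutator of `u` and `x u x⁻¹` is a
transvection with the same axis as `u` and another centre. Otherwise `u` and `x u x⁻¹` are commuting
transvections. (3) For commuting transvections `u` and `1 + X` one finds `m, r` with
`φ (k (1 + m X) u ^ r l v) = 0`; this number is `R + C m + A B r` with `A = φ (k v)`, `B = φ (l v)`.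
First `l` is chosen; then `k` is chosen congruent to `l⁻¹` modulo a large number, so that `R` is
divisible by it, and then `k` is changed by powers of conjugates of `u` until no other prime divides
both `A` and `C`. By a further choice this gives a pair as in (2) which does not commute. (4) Given
two transvections with the same axis and different centres, by Zariski density `H` contains a
subgroup of finite index of the unipotent radical of the stabiliser of the axis, then after a
rational change of the basis all elementary matrices of some level, and the theorem of Bass, Lazard,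
Serre and Mennicke (with an argument of Suslin) shows that `H` contains a congruence subgroup.
(5) For `n = 3` and `u` not a transvection, one finds a transvection in `⟨u, g⟩`.
-/

set_option autoImplicit false

namespace Pool.Agent.Results.MP_a2a22c_al.CommutingUnipotents

open Matrix

/-- The group `SL (n, ℤ)`. -/
abbrev SLZ (n : ℕ) : Type := Matrix.SpecialLinearGroup (Fin n) ℤ

/-- Every complex polynomial in the matrix entries which vanishes on `H` vanishes on
`SL (n, ℂ)`. -/
def ZariskiDense {n : ℕ} (H : Subgroup (SLZ n)) : Prop :=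
  ∀ P : MvPolynomial (Fin n × Fin n) ℂ,
    (∀ A ∈ H, MvPolynomial.eval (fun p => ((A.1 p.1 p.2 : ℤ) : ℂ)) P = 0) →
    ∀ B : Matrix.SpecialLinearGroup (Fin n) ℂ, MvPolynomial.eval (fun p => B.1 p.1 p.2) P = 0

/-- `H` meets every coset of every subgroup of finite index. -/
def ProfinitelyDense {n : ℕ} (H : Subgroup (SLZ n)) : Prop :=
  ∀ K : Subgroup (SLZ n), K.index ≠ 0 → ∀ g : SLZ n, ∃ h ∈ H, g⁻¹ * h ∈ K

/-- Unipotent elements. -/
def IsUnipotent {n : ℕ} (u : SLZ n) : Prop := IsNilpotent (u.1 - 1)

/-- `u = 1 + v ⊗ φ` is a transvection and `g` maps its centre `v` into its axis `ker φ`. -/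
def CentreIntoAxis {n : ℕ} (u g : SLZ n) : Prop :=
  ∃ v φ : Fin n → ℤ, v ≠ 0 ∧ φ ≠ 0 ∧ φ ⬝ᵥ v = 0 ∧ u.1 = 1 + vecMulVec v φ ∧ φ ⬝ᵥ (g.1 *ᵥ v) = 0

/-- No nontrivial power of `g` is a power of `u`; and `u` is a transvection whose centre is mapped
into its axis by `g`, or `n = 3`, `u ≠ 1` is unipotent and `g` commutes with `u`. -/
structure SpecialPair {n : ℕ} (u g : SLZ n) : Prop where
  powers : ∀ a b : ℤ, g ^ a = u ^ b → a = 0
  special : CentreIntoAxis u g ∨ (n = 3 ∧ u ≠ 1 ∧ IsUnipotent u ∧ g * u = u * g)

open Pool.Agent.Run7.h25.TV in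
theorem fi {n : ℕ} (hn : 3 ≤ n) {H : Subgroup (SLZ n)} {u g : SLZ n} (hu : u ∈ H) (hg : g ∈ H)
    (h : SpecialPair u g) (hH : Zd H) : Fi H := by
  obtain ⟨h4, h5⟩ := h
  rcases h5 with ⟨v, φ, hv, hφ, hφv, hm, h6⟩ | ⟨h5, h1, h2, h3⟩
  · obtain ⟨m, rfl⟩ : ∃ m, n = m + 3 := ⟨n - 3, by omega⟩
    by_cases hpar : Par v (Pool.Agent.Helper460_CSP.av g v)
    · exact stab_v (z := u) hH hu hg ⟨hv, hφ, hφv, hm⟩ hpar h4
    · unfold Par at hpar
      push Not at hpar
      obtain ⟨a, b, hab⟩ := hpar
      exact fin_par' hH hv hφ ⟨hφv, u, hu, hm⟩ hg h6 (sub_ne_zero.2 hab)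
  · subst h5
    refine three hH hu hg h1 ?_ h3 h4
    obtain ⟨k, hk⟩ := h2
    have h6 : IsNilpotent (u.1 - 1) := ⟨k, hk⟩
    have h7 := Matrix.isNilpotent_charpoly_sub_pow_of_isNilpotent h6
    have h8 : (u.1 - 1).charpoly = Polynomial.X ^ 3 := by
      have := h7.eq_zero
      rw [Fintype.card_fin, sub_eq_zero] at this
      exact this
    have h9 := Matrix.aeval_self_charpoly (u.1 - 1)
    rw [h8, map_pow, Polynomial.aeval_X] at h9
    exact h9

/-- Let `n ≥ 3`, let `H` be a subgroup of `SL (n, ℤ)` and let `u, g` in `H` be a special pair. If `H`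
is Zariski dense then it has finite index. If `H` is profinitely dense then `H = SL (n, ℤ)`;
consequently every homomorphism onto `H` from a finitely generated residually finite group with the
same finite quotients as `SL (n, ℤ)` is an isomorphism onto `SL (n, ℤ)`. -/
theorem result : ∀ (n : ℕ), 3 ≤ n → ∀ (H : Subgroup (SLZ n)) (u g : SLZ n), u ∈ H → g ∈ H →
    SpecialPair u g →
    (ZariskiDense H → H.index ≠ 0) ∧
    (ProfinitelyDense H → H = ⊤) ∧
    (∀ (Λ : Type) [Group Λ], Group.FG Λ →
      (∀ x : Λ, x ≠ 1 → ∃ K : Subgroup Λ, K.index ≠ 0 ∧ x ∉ K) →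
      (∀ (Q : Type) [Group Q] [Finite Q],
        (∃ p : Λ →* Q, Function.Surjective p) ↔ (∃ p : SLZ n →* Q, Function.Surjective p)) →
      ∀ f : Λ →* SLZ n, f.range = H → ProfinitelyDense H → Function.Bijective f) := by
  intro n hn H u g hu hg h
  have key : ProfinitelyDense H → H = ⊤ := fun hH =>
    have hD := Pool.Agent.Run7.h25.TV.dn_of_profinite hH
    hD.top (fi hn hu hg h hD.zd)
  refine ⟨fun hH => ?_, key, ?_⟩
  · exact Pool.Agent.Run7.h25.TV.fi_index
      (fi hn hu hg h (Pool.Agent.Run7.h25.TV.zd_of_zariski hH))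
  · intro Λ _ hfg hRF hq f hf hH
    have hs : Function.Surjective f := by
      rw [← MonoidHom.range_eq_top, hf]
      exact key hH
    exact ⟨Pool.Agent.Helper460_PR.hopf hfg hRF hq f hs, hs⟩

end Pool.Agent.Results.MP_a2a22c_al.CommutingUnipotents
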