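import Mathlib
import Pool.Agent.Run7.h134.PF5

/-!
# Profinite rigidity of `SL (n, ℤ)` among the groups with a homomorphism from `SAut (F_m)`

Let `SAut (F_m)` be the subgroup of `Aut (F_m)` generated by the transvections, `m ≥ 5`, and let `Λ`
be a finitely generated residually finite group with the same finite quotients as `SL (n, ℤ)`, where
`3 ≤ n ≤ m`. If there is a nontrivial homomorphism `f` from `SAut (F_m)` to `Λ`, then `m = n`, the
group `Λ` is isomorphic to `SL (n, ℤ)`, and `f` is surjective. In particular this holds if
`SL (m, ℤ)` has a nontrivial homomorphism to `Λ`, for instance if `Λ` contains a subgroup isomorphic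
to `SL (m, ℤ)`. The same is proved for the groups `E_m(R)` generated by the elementary matrices over an
arbitrary associative ring `R`; then there is a ring homomorphism `R → ℤ`, and if `f` is injective
the ring `R` is isomorphic to `ℤ`.

Steps of the proof. (1) For every prime `p` the homomorphisms from `Λ` onto the images of `SL (n, ℤ)`
in `SL (n, ℤ / p ^ k)` have a limit, a nontrivial representation `ρ_p` of `Λ` over the `p`-adic
integers. (2) Let `f g ≠ 1`. The homomorphisms from `Λ` and from `SL (n, ℤ)` to a finite group
correspond to each other, and by the congruence subgroup property (Bass, Lazard, Serre, Mennicke) it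
follows that for some prime `p` the representation `ρ_p` can be chosen with `ρ_p (f g) ≠ 1`. (3) A
representation of `SAut (F_m)` of dimension at most `m` in characteristic different from two
is trivial, or it has dimension `m` and is the standard representation on the abelianisation or its
dual. So `n = m`, and after a change of the basis (and passing to the dual, if necessary) `ρ_p ∘ f` is
the standard representation. The traces of `ρ_p` are `p`-adic integers, and the coefficients are
combinations of traces, hence also integral. (4) Two nontrivial representations of `Λ` of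
dimension `n` over a finite field of odd characteristic have, up to replacing one of them by its dual,
the same traces, since they have a common finite image, which is a quotient of `SL (n, ℤ)`. So two
homomorphisms from the ring generated by the coefficients of `ρ_p` to a finite field of odd
characteristic are equal, and the coefficients of `ρ_p` are rational numbers. (5) If `ρ_l ∘ f`
were trivial for another prime `l`, we could compare residual representations of `ρ_l` and `ρ_p`
over a common finite field and get a contradiction. So the steps (3) and (4) apply to the product of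
all `ρ_p`, and the ring `S` generated by the coefficients in the product of the rings `ℤ_p` has a
homomorphism to `ℤ`. Hence `Λ` maps onto `SL (n, ℤ)`. (6) A surjection from a finitely generated
residually finite group onto a group with the same finite quotients is injective.
-/

set_option autoImplicit false

namespace Pool.Agent.Results.MP_a2a22c_al.HomomorphismsFromSAut

open Pool.Agent.Helper460_PR

/-- `τ` is a Nielsen transvection: for some `i ≠ j` it maps `x_i` to `x_i x_j` or to `x_j x_i` and
fixes the other generators. -/
def IsTransvection {m : ℕ} (τ : MulAut (FreeGroup (Fin m))) : Prop :=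
  ∃ i j : Fin m, i ≠ j ∧
    (τ (FreeGroup.of i) = FreeGroup.of i * FreeGroup.of j ∨
      τ (FreeGroup.of i) = FreeGroup.of j * FreeGroup.of i) ∧
    ∀ k, k ≠ i → τ (FreeGroup.of k) = FreeGroup.of k

/-- The group `SAut (F_m)` generated by the transvections. -/
def SAut (m : ℕ) : Subgroup (MulAut (FreeGroup (Fin m))) :=
  Subgroup.closure {τ | IsTransvection τ}

/-- The elementary group `E_m(R)`: the group of invertible matrices over the ring `R` generated by
the elementary matrices `1 + r e_{ij}`, `i ≠ j`. -/
def Elem (m : ℕ) (R : Type) [Ring R] : Subgroup (Matrix (Fin m) (Fin m) R)ˣ :=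
  Subgroup.closure {g | ∃ i j, i ≠ j ∧ ∃ r : R,
    (g : Matrix (Fin m) (Fin m) R) = 1 + Matrix.single i j r}

lemma SAut_eq (m : ℕ) : SAut m = SA m := by
  unfold SAut SA
  congr 1
  ext τ
  constructor
  · rintro ⟨i, j, hij, h | h, h'⟩
    · refine ⟨i, j, hij, Or.inl (Helper460_OutF.aut_ext fun k => ?_)⟩
      by_cases hk : k = i
      · subst hk; rw [h, ro_self hij]
      · rw [h' k hk, ro_ne j hk]
    · refine ⟨i, j, hij, Or.inr (Helper460_OutF.aut_ext fun k => ?_)⟩
      by_cases hk : k = i
      · subst hk; rw [h, la_self hij]
      · rw [h' k hk, la_ne j hk]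
  · rintro ⟨i, j, hij, rfl | rfl⟩
    · exact ⟨i, j, hij, Or.inl (ro_self hij), fun k hk => ro_ne j hk⟩
    · exact ⟨i, j, hij, Or.inr (la_self hij), fun k hk => la_ne j hk⟩

/-- `Λ` is finitely generated and residually finite, and it has the same finite quotients as
`SL (n, ℤ)`. -/
def IsProfiniteTwin (n : ℕ) (Λ : Type) [Group Λ] : Prop :=
  Group.FG Λ ∧ (∀ g : Λ, g ≠ 1 → ∃ H : Subgroup Λ, H.index ≠ 0 ∧ g ∉ H) ∧
    ∀ (Q : Type) [Group Q] [Finite Q],
      (∃ f : Λ →* Q, Function.Surjective f) ↔
      (∃ f : Matrix.SpecialLinearGroup (Fin n) ℤ →* Q, Function.Surjective f)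

/-- Every nontrivial homomorphism from `G` to `Λ` is surjective, and if there is one then `m = n` and
`Λ` is isomorphic to `SL (n, ℤ)`. -/
def NontrivialOnto (m n : ℕ) (G Λ : Type) [Group G] [Group Λ] : Prop :=
  ∀ f : G →* Λ, f ≠ 1 →
    m = n ∧ Nonempty (Λ ≃* Matrix.SpecialLinearGroup (Fin n) ℤ) ∧ Function.Surjective f

/-- If there is a nontrivial homomorphism `f` from `G` to `Λ`, then there is a ring homomorphism from
`R` to `ℤ`; if `f` is injective, then `R` is isomorphic to `ℤ`. -/
def OnlyIntegers (R G Λ : Type) [Ring R] [Group G] [Group Λ] : Prop :=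
  ∀ f : G →* Λ, f ≠ 1 → Nonempty (R →+* ℤ) ∧ (Function.Injective f → Nonempty (R ≃+* ℤ))

lemma ne_one {G Λ : Type} [Group G] [Group Λ] {f : G →* Λ} (h : f ≠ 1) : ∃ g, f g ≠ 1 := by
  by_contra hcon
  push Not at hcon
  exact h (MonoidHom.ext hcon)

/-- Let `3 ≤ n ≤ m` and `5 ≤ m`, and let `Λ` be a finitely generated residually finite group with the
same finite quotients as `SL (n, ℤ)`. (1) If `f` is a nontrivial homomorphism from `SAut (F_m)` to
`Λ`, then `m = n`, `Λ` is isomorphic to `SL (n, ℤ)`, and `f` is surjective. (2) If `f` is a
nontrivial homomorphism from `E_m(R)` to `Λ`, where `R` is an associative ring with unit, then `m = n`,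
`Λ` is isomorphic to `SL (n, ℤ)`, `f` is surjective, and there is a ring homomorphism from `R` to
`ℤ`; if `f` is injective, then `R` is isomorphic to `ℤ`. -/
theorem result (n m : ℕ) (hn : 3 ≤ n) (hm : 5 ≤ m) (hnm : n ≤ m) (Λ : Type) [Group Λ]
    (hΛ : IsProfiniteTwin n Λ) :
    NontrivialOnto m n (SAut m) Λ ∧
    ∀ (R : Type) [Ring R], NontrivialOnto m n (Elem m R) Λ ∧ OnlyIntegers R (Elem m R) Λ := by
  obtain ⟨hfg, hRF, hq⟩ := hΛ
  refine ⟨?_, fun R _ => ⟨fun f hf => ?_, fun f hf => ?_⟩⟩
  · rw [SAut_eq]
    exact fun f hf => Run7.h134.PE.mainF hn hm hnm Λ hfg hRF hq f (ne_one hf)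
  · obtain ⟨h1, h2, h3, -, -⟩ :=
      Run7.h134.PE.mainG hn hm hnm R Λ hfg hRF hq f (ne_one hf)
    exact ⟨h1, h2, h3⟩
  · obtain ⟨-, -, -, h4, h5⟩ :=
      Run7.h134.PE.mainG hn hm hnm R Λ hfg hRF hq f (ne_one hf)
    exact ⟨h4, h5⟩

end Pool.Agent.Results.MP_a2a22c_al.HomomorphismsFromSAut
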