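import Pool.Agent.Run7.h266.SLP
import Pool.Agent.Run7.h266.QuadW
import Pool.Agent.Run7.h266.BddB
import Pool.Agent.Run7.h266.OneDimC
import Pool.Agent.Run7.h266.OneDimD

/-!
# Actions of groups with the finite quotients of `SL (n, ℤ)`

Let `n ≥ 3` and let `Λ` be a group all of whose finite quotients are quotients of `SL (n, ℤ)`; for
instance a group with the same finite quotients as `SL (n, ℤ)`. By the theorem of Bass, Lazard,
Serre and Mennicke no subgroup of finite index of `Λ` has a nontrivial homomorphism to `ℤ`: a finite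
quotient of `SL (n, ℤ)` with an abelian normal subgroup of index `N` is a quotient of
`SL (n, ℤ / N ^ 2)`, so its order is bounded in terms of `n` and `N`.

If `Λ` is finitely presented, then the geometric theorems of the author about finitely presented
groups which are not virtually indicable (`MP_65b575_al`) apply to `Λ`. They say that `Λ` has no
thin actions. An action of `Λ` has finite image, or it contains, for every large `r`, balls of
radius `r` with more than `r ^ 2 / D` points, where `D` depends only on `Λ` and the generators; in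
particular the Schreier graphs of the subgroups of infinite index have at least quadratic growth. If
all balls of an action are small at one scale, or if the action is one-dimensional at a certain
scale, then it satisfies a linear isoperimetric inequality. The homomorphisms from `Λ` to the full
groups of actions of less than quadratic growth, to the full groups of bounded actions on rooted
trees (Grigorchuk's group and all groups generated by bounded automata) and to the topological full
groups of one-dimensional minimal actions with an invariant mean have finite images. So a finitely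
presented group with the same finite quotients as `SL (n, ℤ)` is not a subgroup of any of these
groups. It is not known whether such a group `Λ` has property (T).
-/

set_option autoImplicit false

open scoped Pointwise Topology

open Matrix

namespace Pool.Agent.Results.MP_a2a22c_al.ThinActions

universe w

/-- The group `SL (n, ℤ)`. -/
abbrev SLZ (n : ℕ) : Type := Matrix.SpecialLinearGroup (Fin n) ℤ

/-- Every finite quotient of `Λ` is a quotient of `SL (n, ℤ)`. -/
def OnlyQuotients (n : ℕ) (Λ : Type) [Group Λ] : Prop :=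
  ∀ (Q : Type) [Group Q] [Finite Q], (∃ p : Λ →* Q, Function.Surjective p) →
    ∃ p : SLZ n →* Q, Function.Surjective p

/-- `Λ` has the same finite quotients as `SL (n, ℤ)`. -/
def SameQuotients (n : ℕ) (Λ : Type) [Group Λ] : Prop :=
  ∀ (Q : Type) [Group Q] [Finite Q], (∃ p : Λ →* Q, Function.Surjective p) ↔
    ∃ p : SLZ n →* Q, Function.Surjective p

/-- The points of `Y` moved out of `Y` by a generator or its inverse. -/
def boundary {G : Type} [Group G] {X : Type} [MulAction G X] (S : Set G) (Y : Set X) : Set X :=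
  {x | x ∈ Y ∧ ∃ s ∈ S, s • x ∉ Y ∨ s⁻¹ • x ∉ Y}

/-- The ball of radius `n` around `x`. -/
def ball {G : Type} [Group G] {X : Type} [MulAction G X] (S : Set G) (n : ℕ) (x : X) : Set X :=
  {y | ∃ g ∈ (S ∪ S⁻¹ ∪ {1}) ^ n, g • x = y}

/-- The points with orbits of more than `C` points. -/
def big (G : Type) [Group G] (C : ℕ) (X : Type) [MulAction G X] : Set X :=
  {x | (C : ℕ∞) < (MulAction.orbit G x).encard}

/-- Growth less than quadratic: for all finite `E` and all `δ > 0` there are arbitrarily large `n`
such that `E ^ n x` has at most `δ n ^ 2` points for all `x`. -/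
def Subquadratic (Γ : Type w) (X : Type) [Group Γ] [MulAction Γ X] : Prop :=
  ∀ E : Set Γ, E.Finite → ∀ δ : ℝ, 0 < δ → ∀ n₀ : ℕ, ∃ n : ℕ, n₀ ≤ n ∧ ∀ x : X,
    (({y | ∃ γ ∈ E ^ n, y = γ • x} : Set X).ncard : ℝ) ≤ δ * (n : ℝ) ^ 2

/-- The prefixes of length `n` of infinite words such that `γ` changes a letter after the first `n`
letters of some word with this prefix. -/
def exceptional {Γ : Type w} [Group Γ] {A : Type} [MulAction Γ (ℕ → A)] (γ : Γ) (n : ℕ) :
    Set (Fin n → A) :=
  {v | ∃ x : ℕ → A, (∀ i : Fin n, x i = v i) ∧ ∃ i, n ≤ i ∧ (γ • x) i ≠ x i}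

/-- For each `γ` the number of exceptional prefixes of length `n` is bounded. -/
def BoundedAction (Γ : Type w) [Group Γ] (A : Type) [MulAction Γ (ℕ → A)] : Prop :=
  ∀ γ : Γ, ∃ b : ℕ, ∀ n : ℕ, (exceptional (A := A) γ n).encard ≤ b

/-- A jump from `x` to `y` by an element of `E` such that the colours of `x` and `y` agree; `B` is
the set of the points of the first colour. -/
def Jump {Γ : Type w} [Group Γ] {X : Type} [MulAction Γ X] (E : Set Γ) (B : Set X) (x y : X) :
    Prop :=
  (x ∈ B ↔ y ∈ B) ∧ ∃ γ ∈ E, y = γ • x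

/-- For each finite set `E` there is a colouring of `X` by two colours such that a bounded number of
points is reached by chains of jumps from each point. -/
def OneDimensional (Γ : Type w) [Group Γ] (X : Type) [MulAction Γ X] : Prop :=
  ∀ E : Set Γ, E.Finite → ∃ (t : ℕ) (B : Set X), ∀ x,
    {y | Relation.ReflTransGen (Jump E B) x y}.encard ≤ t

/-- A finitely additive probability measure on all subsets of `X`, invariant under `Γ`. -/
structure IsMean (Γ : Type w) [Group Γ] {X : Type} [MulAction Γ X] (m : Set X → ℝ) : Prop where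
  univ : m Set.univ = 1
  nonneg : ∀ B, 0 ≤ m B
  add : ∀ B B' : Set X, Disjoint B B' → m (B ∪ B') = m B + m B'
  inv : ∀ (γ : Γ) (B : Set X), m ((fun x => γ • x) ⁻¹' B) = m B

/-- Every orbit is dense. -/
def Minimal (Γ : Type w) (X : Type) [Group Γ] [MulAction Γ X] [TopologicalSpace X] : Prop :=
  ∀ U : Set X, IsOpen U → U.Nonempty → ∀ x, ∃ γ : Γ, γ • x ∈ U

/-- For the finite set `E` there is a colouring of `X` by two colours such that at most `t` points
are reached by chains of jumps from each point. -/
def TwoColoured {G : Type} [Group G] (X : Type) [MulAction G X] (E : Set G) (t : ℕ) : Prop :=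
  ∃ A : Set X, ∀ x, {y | Relation.ReflTransGen (Jump E A) x y}.encard ≤ t

/-- At each point the permutation `σ` coincides with an element of a fixed finite subset of `Γ`. -/
def Piecewise (Γ : Type w) {X : Type} [Group Γ] [MulAction Γ X] (σ : Equiv.Perm X) : Prop :=
  ∃ E : Set Γ, E.Finite ∧ ∀ x, ∃ γ ∈ E, σ x = γ • x

/-- The homeomorphism `σ` coincides locally with elements of `Γ`. -/
def Locally (Γ : Type w) {X : Type} [Group Γ] [MulAction Γ X] [TopologicalSpace X]
    (σ : X ≃ₜ X) : Prop :=
  ∀ x, ∃ γ : Γ, ∀ᶠ y in 𝓝 x, σ y = γ • y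

theorem infinite_of_same {n : ℕ} (hn : 3 ≤ n) {Λ : Type} [Group Λ] (h : SameQuotients n Λ) :
    Infinite Λ := by
  by_contra hfin
  rw [not_infinite_iff_finite] at hfin
  have h2 : (⟨0, by omega⟩ : Fin n) ≠ ⟨1, by omega⟩ := by
    intro e
    have := congrArg Fin.val e
    simp at this
  set m : ℕ := Nat.card Λ + 1 with hm
  have : NeZero m := ⟨by omega⟩
  let f : SLZ n →* Matrix.SpecialLinearGroup (Fin n) (ZMod m) :=
    Matrix.SpecialLinearGroup.map (n := Fin n) (Int.castRingHom (ZMod m))
  obtain ⟨p, hp⟩ := (h f.range).2 ⟨f.rangeRestrict, f.rangeRestrict_surjective⟩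
  have hle : Nat.card f.range ≤ Nat.card Λ := Nat.card_le_card_of_surjective p hp
  have hinj : Function.Injective fun t : Fin m =>
      f.rangeRestrict (Pool.Agent.Helper460_CSP.tv ⟨0, by omega⟩ ⟨1, by omega⟩ h2 (t : ℤ)) := by
    intro s t hst
    have h3 : f (Pool.Agent.Helper460_CSP.tv ⟨0, by omega⟩ ⟨1, by omega⟩ h2 (s : ℤ)) =
        f (Pool.Agent.Helper460_CSP.tv ⟨0, by omega⟩ ⟨1, by omega⟩ h2 (t : ℤ)) :=
      congrArg Subtype.val hst
    have h4 : ∀ r : ℤ, (f (Pool.Agent.Helper460_CSP.tv ⟨0, by omega⟩ ⟨1, by omega⟩ h2 r)).1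
        ⟨0, by omega⟩ ⟨1, by omega⟩ = (r : ZMod m) := by
      intro r
      show ((transvection (⟨0, by omega⟩ : Fin n) ⟨1, by omega⟩ r ⟨0, by omega⟩ ⟨1, by omega⟩ : ℤ) :
        ZMod m) = _
      unfold transvection
      rw [Matrix.add_apply, Matrix.single_apply_same, Matrix.one_apply_ne h2, zero_add]
    have h5 : ((s : ℤ) : ZMod m) = ((t : ℤ) : ZMod m) := by
      rw [← h4, ← h4, h3]
    rw [ZMod.intCast_eq_intCast_iff_dvd_sub] at h5
    have hs := s.2
    have ht := t.2
    have h6 : ((t : ℤ) - (s : ℤ)) = 0 := by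
      apply Int.eq_zero_of_abs_lt_dvd h5
      rw [abs_lt]
      constructor <;> omega
    apply Fin.ext
    omega
  have h7 := Nat.card_le_card_of_injective _ hinj
  rw [Nat.card_eq_fintype_card, Fintype.card_fin] at h7
  omega

/-- Let `n ≥ 3` and let `Λ` be a group all of whose finite quotients are quotients of `SL (n, ℤ)`.
(1) Homomorphisms from subgroups of finite index of `Λ` to `ℤ` are trivial. If `Λ` is finitely
presented then: (2) for every finite generating set there is `D` such that the actions with small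
balls at one scale satisfy a linear isoperimetric inequality, the actions have finite image or at
least quadratic growth, and the Schreier graphs of the subgroups of infinite index have at least
quadratic growth; (3) the actions which are one-dimensional at scale `D` satisfy a linear
isoperimetric inequality, and their large orbits have exponential growth and are null for all
invariant means; (4) the homomorphisms to full groups and topological full groups of actions of
less than quadratic growth, (5) to full groups of bounded actions on infinite words and to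
topological full groups of one-dimensional minimal actions with an invariant mean have finite
images. (6) `Λ` is infinite if it has the same finite quotients as `SL (n, ℤ)`. -/
theorem result (n : ℕ) (hn : 3 ≤ n) (Λ : Type) [Group Λ] (hΛ : OnlyQuotients n Λ) :
    (∀ K : Subgroup Λ, K.FiniteIndex → ∀ φ : K →* Multiplicative ℤ, φ = 1) ∧
    (∀ [Group.IsFinitelyPresented Λ],
      (∀ S : Set Λ, S.Finite → Subgroup.closure S = ⊤ → ∃ D : ℕ, 0 < D ∧
        (∀ r₀ : ℕ, ∃ C : ℕ, ∀ (X : Type) [MulAction Λ X],
          (∀ x : X, ∃ r ≤ r₀, D * (ball S r x).ncard ≤ r ^ 2) →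
            ∀ Y : Set X, Y.Finite → (Y ∩ big Λ C X).ncard ≤ C * (boundary S Y).ncard) ∧
        (∀ (X : Type) [MulAction Λ X],
          (Set.range (MulAction.toPermHom Λ X)).Finite ∨
            ∃ r₁ : ℕ, ∀ r, r₁ ≤ r → ∃ x : X, r ^ 2 < D * (ball S r x).ncard) ∧
        ∀ H : Subgroup Λ, H.index = 0 →
          ∃ r₁ : ℕ, ∀ r, r₁ ≤ r → ∃ x : Λ ⧸ H, r ^ 2 < D * (ball S r x).ncard) ∧
      (∀ S : Set Λ, S.Finite → Subgroup.closure S = ⊤ → ∃ D : ℕ, ∀ t : ℕ, ∃ C : ℕ, ∃ c : ℝ,
        0 < c ∧ ∀ (X : Type) [MulAction Λ X], TwoColoured X ((S ∪ S⁻¹ ∪ {1}) ^ D) t →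
          (∀ Y : Set X, Y.Finite → (Y ∩ big Λ C X).ncard ≤ C * (boundary S Y).ncard) ∧
          (∀ m : Set X → ℝ, IsMean Λ m → m (big Λ C X) = 0) ∧
          (∀ x ∈ big Λ C X, (∀ r : ℕ, Real.exp (c * r) ≤ 2 * (ball S r x).ncard) ∧
            ∀ m : Set X → ℝ, IsMean Λ m → m (MulAction.orbit Λ x) = 0)) ∧
      (∀ (Γ : Type w) (X : Type) [Group Γ] [MulAction Γ X], Subquadratic Γ X →
        (∀ f : Λ →* Equiv.Perm X, (∀ g, Piecewise Γ (f g)) → (Set.range f).Finite) ∧
        (∀ [TopologicalSpace X] [CompactSpace X] (f : Λ →* (X ≃ₜ X)), (∀ g, Locally Γ (f g)) →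
          (Set.range f).Finite)) ∧
      (∀ (Γ : Type w) [Group Γ],
        (∀ (A : Type) [Finite A] [MulAction Γ (ℕ → A)], BoundedAction Γ A →
          ∀ f : Λ →* Equiv.Perm (ℕ → A), (∀ g, Piecewise Γ (f g)) → (Set.range f).Finite) ∧
        (∀ (X : Type) [MulAction Γ X] [TopologicalSpace X] [CompactSpace X] [T2Space X]
          [ContinuousConstSMul Γ X], OneDimensional Γ X → Minimal Γ X →
          (∃ m : Set X → ℝ, IsMean Γ m) →
          ∀ f : Λ →* (X ≃ₜ X), (∀ g, Locally Γ (f g)) → (Set.range f).Finite))) ∧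
    (SameQuotients n Λ → Infinite Λ) := by
  have hvi : ∀ (K : Subgroup Λ), K.FiniteIndex → ∀ (φ : K →* Multiplicative ℤ) (k : K),
      φ k = 1 := fun K hK φ k => Run7.h266.SLP.not_vi hn hΛ K hK φ k
  refine ⟨fun K hK φ => MonoidHom.ext fun k => hvi K hK φ k, ?_, infinite_of_same hn⟩
  intro _
  have hG : Group.FG Λ := by
    obtain ⟨k, φ, hφ, -⟩ := Group.IsFinitelyPresented.out (G := Λ)
    exact Group.fg_of_surjective hφ
  have hfg : (⊤ : Subgroup Λ).FG := (Group.fg_def (G := Λ)).1 hG
  have hU : Run7.h266.Unseen (⊤ : Subgroup Λ) := fun K hK φ k _ => hvi K hK φ k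
  have hrange : ∀ {P : Type} [Group P] (f : Λ →* P),
      (f '' ((⊤ : Subgroup Λ) : Set Λ)).Finite → (Set.range f).Finite := by
    intro P _ f h
    rwa [Subgroup.coe_top, Set.image_univ] at h
  have htop : ∀ (X : Type) [MulAction Λ X] (x : X),
      MulAction.orbit (⊤ : Subgroup Λ) x = MulAction.orbit Λ x := by
    intro X _ x
    ext y
    constructor
    · rintro ⟨g, rfl⟩
      exact ⟨g.1, rfl⟩
    · rintro ⟨g, rfl⟩
      exact ⟨⟨g, Subgroup.mem_top g⟩, rfl⟩
  have hmean : ∀ {X : Type} [MulAction Λ X] {m : Set X → ℝ}, IsMean Λ m → Run7.h266.Mean Λ m :=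
    fun h => ⟨h.univ, h.nonneg, h.add, h.inv⟩
  refine ⟨?_, ?_, ?_, ?_⟩
  · intro S hSf hS
    obtain ⟨D₁, hD₁, h₁⟩ := Run7.h266.quad_isop hS hSf hfg hU
    obtain ⟨D₂, hD₂, h₂⟩ := Run7.h266.quad_top hS hSf hU
    have h₂' : ∀ (X : Type) [MulAction Λ X],
        (∃ N : ℕ, ∀ x : X, (MulAction.orbit Λ x).encard ≤ N) ∨
          ∃ r₁ : ℕ, ∀ r, r₁ ≤ r → ∃ x : X, r ^ 2 < (D₁ + D₂) * (ball S r x).ncard := by
      intro X _
      rcases h₂ X with h | ⟨r₁, h⟩
      · exact Or.inl h
      · refine Or.inr ⟨r₁, fun r hr => ?_⟩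
        obtain ⟨x, hx⟩ := h r hr
        exact ⟨x, lt_of_lt_of_le hx (Nat.mul_le_mul_right _ (Nat.le_add_left _ _))⟩
    refine ⟨D₁ + D₂, by omega, fun r₀ => ?_, fun X _ => ?_, fun H hH => ?_⟩
    · obtain ⟨C, hC⟩ := h₁ r₀
      refine ⟨C, fun X _ hX Y hY => ?_⟩
      have h1 := hC X (fun x => ?_) Y hY
      · simp only [htop] at h1
        exact h1
      · obtain ⟨r, hr, h2⟩ := hX x
        exact ⟨r, hr, le_trans (Nat.mul_le_mul_right _ (Nat.le_add_right _ _)) h2⟩
    · rcases h₂' X with ⟨N, hN⟩ | h
      · left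
        apply hrange
        refine Run7.h266.image_finite (MulAction.toPermHom Λ X) hfg N fun x => ?_
        refine le_trans (Set.encard_le_encard ?_) (hN x)
        rintro _ ⟨g, -, rfl⟩
        exact ⟨g, rfl⟩
      · exact Or.inr h
    · rcases h₂' (Λ ⧸ H) with ⟨N, hN⟩ | h1
      · exfalso
        have h2 := hN ((1 : Λ) : Λ ⧸ H)
        rw [MulAction.orbit_eq_univ] at h2
        have h3 : Infinite (Λ ⧸ H) := by
          rw [← not_finite_iff_infinite]
          intro h4
          have : H.FiniteIndex := Subgroup.finiteIndex_of_finite_quotient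
          exact this.index_ne_zero hH
        rw [Set.encard_univ, ENat.card_eq_top_of_infinite] at h2
        exact absurd h2 (by simp)
      · exact h1
  · intro S hSf hS
    obtain ⟨D, hD⟩ := Run7.h266.twocol_all hS hSf hfg hU
    refine ⟨D, fun t => ?_⟩
    obtain ⟨C, c, hc, h⟩ := hD t
    refine ⟨C, c, hc, fun X _ hX => ?_⟩
    obtain ⟨h1, h2, h3⟩ := h X hX
    simp only [htop] at h1 h2 h3
    have hnf : (Subgroup.normalizer ((⊤ : Subgroup Λ) : Set Λ)).FiniteIndex := by
      rw [Subgroup.normalizer_eq_top]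
      infer_instance
    refine ⟨fun Y hY => h1 Y hY, fun m hm => h2 m (hmean hm), fun x hx => ?_⟩
    rcases h3 hnf x with h4 | h4
    · exact absurd hx (not_lt.2 h4)
    · exact ⟨h4.1, fun m hm => h4.2 m (hmean hm)⟩
  · intro Γ X _ _ hX
    exact ⟨fun f hf => hrange f (Run7.h266.quad_finite hfg hU hX f hf),
      fun f hf => hrange f (Run7.h266.quad_finite_top hfg hU hX f hf)⟩
  · intro Γ _
    constructor
    · intro A _ _ hA f hf
      have := Fintype.ofFinite A
      have hBA : Run7.h266.BA Γ A := by
        intro γ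
        obtain ⟨b, hb⟩ := hA γ
        refine ⟨b, fun n => le_trans (Set.encard_le_encard ?_) (hb n)⟩
        rintro _ ⟨x, hx, rfl⟩
        exact ⟨x, fun i => rfl, hx⟩
      exact hrange f (Run7.h266.ba_finite hfg hU hBA f hf)
    · intro X _ _ _ _ _ hX hmin ⟨m, hm⟩ f hf
      have hX' : Run7.h266.OneD Γ X := fun E hE => by
        obtain ⟨t, B, hB⟩ := hX E hE
        exact ⟨t, B, hB⟩
      exact hrange f
        (Run7.h266.top_finite hfg hU hX' hmin hm.univ hm.nonneg hm.add hm.inv f hf)

end Pool.Agent.Results.MP_a2a22c_al.ThinActions
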