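import Mathlib
import Pool.Agent.Run7.h25.TV.Fin
import Pool.Agent.Run7.h25.TV.Plane

/-!
# Pairs of transvections in dense subgroups of infinite index of `SL (n, ℤ)`

Let `n ≥ 3` and let `H` be a Zariski dense subgroup of infinite index of `SL (n, ℤ)`, or a proper
subgroup of `SL (n, ℤ)` which is dense in the profinite topology. Let `u = 1 + v ⊗ φ` and
`w = 1 + y ⊗ ψ` be transvections in `H`. Then either `u` and `w` have a common nontrivial power, or
`u` and `w` generate a free group of rank two, `|tr (u w) - n| = |φ (y) ψ (v)| ≥ 5`, and `H`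
contains no subgroup of finite index of the group `Envelope u w` of all elements of `SL (n, ℤ)` which
fix all the column vectors and all the row vectors fixed by `u` and `w`; the last group is the
copy of a group commensurable with `SL (2, ℤ)` which belongs to the decomposition of `ℚ ^ n` into the
plane of the centres and the intersection of the axes. In particular, a Zariski dense subgroup of
`SL (n, ℤ)` which contains a subgroup of finite index of the corner `SL (2, ℤ)` has finite index,
and so has a Zariski dense subgroup which contains two transvections `u, w` without common power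
with `|tr (u w) - n| ≤ 4`.

Idea of the proof. (1) If `φ (y) = 0` and `v, y` are not parallel, or `v, y` are parallel and
`φ, ψ` are not, then a Zariski dense `H` has finite index. This is proved by finding in `H` two
commuting transvections, then two transvections with the same axis and different centres, then a
subgroup of finite index of the unipotent radical of the stabiliser of the axis, then all elementary
matrices of some level in a rational basis; the theorem of Bass, Lazard, Serre and Mennicke shows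
that `H` contains a congruence subgroup. (2) If every vector `z` of a plane `P` which contains `v` is
the centre of a transvection in `H`, then choose `k` in `H` such that `k⁻¹ v` is not in `P` and `z`
in `P` with `φ (k z) = 0`. The centre `k z` of the conjugate transvection lies on the axis of `u`
and is not parallel to `v`, and (1) applies. (3) If `H` contains a subgroup of finite index of
`Envelope u w` then (2) applies to the plane of `v` and `y`. If `0 < |φ (y) ψ (v)| ≤ 4`, then by
Euclid's algorithm each vector of this plane is equivalent under `⟨u, w⟩` to a multiple of `v`, of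
`y`, or, if `φ (y) ψ (v) = - 4 ε` with a sign `ε`, of the centre `ε φ (y) v + 2 y` of the
transvection `(u ^ ε w) ^ 4`, and (2) applies again. (4) If `|φ (y) ψ (v)| ≥ 4` then `⟨u, w⟩` is free
by ping-pong with the sets `2 |φ| < |φ (y)| |ψ|` and `2 |φ| > |φ (y)| |ψ|` of vectors.
-/

set_option autoImplicit false

namespace Pool.Agent.Results.MP_a2a22c_al.TransvectionPairs

open Matrix

/-- The group `SL (n, ℤ)`. -/
abbrev SLZ (n : ℕ) : Type := Matrix.SpecialLinearGroup (Fin n) ℤ

/-- Every complex polynomial in the matrix entries which vanishes on `H` vanishes on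
`SL (n, ℂ)`. -/
def ZariskiDense {n : ℕ} (H : Subgroup (SLZ n)) : Prop :=
  ∀ P : MvPolynomial (Fin n × Fin n) ℂ,
    (∀ A ∈ H, MvPolynomial.eval (fun p => ((A.1 p.1 p.2 : ℤ) : ℂ)) P = 0) →
    ∀ B : Matrix.SpecialLinearGroup (Fin n) ℂ, MvPolynomial.eval (fun p => B.1 p.1 p.2) P = 0

/-- `H` meets every coset of every subgroup of finite index. -/
def ProfinitelyDense {n : ℕ} (H : Subgroup (SLZ n)) : Prop :=
  ∀ K : Subgroup (SLZ n), K.index ≠ 0 → ∀ g : SLZ n, ∃ h ∈ H, g⁻¹ * h ∈ K

/-- `u = 1 + v ⊗ φ` with `v, φ` different from `0` and `φ (v) = 0`. -/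
def IsTransvection {n : ℕ} (u : SLZ n) : Prop :=
  ∃ v φ : Fin n → ℤ, v ≠ 0 ∧ φ ≠ 0 ∧ φ ⬝ᵥ v = 0 ∧ u.1 = 1 + vecMulVec v φ

lemma fix_inv {n : ℕ} {g : SLZ n} {x : Fin n → ℤ} (h : g.1 *ᵥ x = x) : (g⁻¹).1 *ᵥ x = x := by
  have h1 : (g⁻¹).1 * g.1 = 1 := by
    have := congrArg Subtype.val (inv_mul_cancel g)
    exact this
  calc (g⁻¹).1 *ᵥ x = (g⁻¹).1 *ᵥ (g.1 *ᵥ x) := by rw [h]
    _ = x := by rw [mulVec_mulVec, h1, one_mulVec]

lemma fix_inv' {n : ℕ} {g : SLZ n} {x : Fin n → ℤ} (h : x ᵥ* g.1 = x) : x ᵥ* (g⁻¹).1 = x := by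
  have h1 : g.1 * (g⁻¹).1 = 1 := by
    have := congrArg Subtype.val (mul_inv_cancel g)
    exact this
  calc x ᵥ* (g⁻¹).1 = (x ᵥ* g.1) ᵥ* (g⁻¹).1 := by rw [h]
    _ = x := by rw [vecMul_vecMul, h1, vecMul_one]

/-- The group of all `g` in `SL (n, ℤ)` which fix every column vector fixed by `u` and `w` and
every row vector fixed by `u` and `w`. -/
def Envelope {n : ℕ} (u w : SLZ n) : Subgroup (SLZ n) where
  carrier := {g | (∀ x : Fin n → ℤ, u.1 *ᵥ x = x → w.1 *ᵥ x = x → g.1 *ᵥ x = x) ∧
    ∀ x : Fin n → ℤ, x ᵥ* u.1 = x → x ᵥ* w.1 = x → x ᵥ* g.1 = x}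
  mul_mem' := by
    rintro g h ⟨g1, g2⟩ ⟨h1, h2⟩
    refine ⟨fun x hu hw => ?_, fun x hu hw => ?_⟩
    · change (g.1 * h.1) *ᵥ x = x
      rw [← mulVec_mulVec, h1 x hu hw, g1 x hu hw]
    · change x ᵥ* (g.1 * h.1) = x
      rw [← vecMul_vecMul, g2 x hu hw, h2 x hu hw]
  one_mem' := ⟨fun x _ _ => one_mulVec x, fun x _ _ => vecMul_one x⟩
  inv_mem' := by
    rintro g ⟨g1, g2⟩
    exact ⟨fun x hu hw => fix_inv (g1 x hu hw), fun x hu hw => fix_inv' (g2 x hu hw)⟩

/-- For all transvections `u, w` in `H`: either `u` and `w` have a common nontrivial power, or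
`u, w` are the free generators of a free group, `|tr (u w) - n| ≥ 5` and the intersection of `H` with
`Envelope u w` has infinite index in `Envelope u w`. -/
def TransvectionDichotomy {n : ℕ} (H : Subgroup (SLZ n)) : Prop :=
  ∀ u ∈ H, ∀ w ∈ H, IsTransvection u → IsTransvection w →
    (∃ a b : ℤ, a ≠ 0 ∧ b ≠ 0 ∧ u ^ a = w ^ b) ∨
    (Function.Injective (FreeGroup.lift ![u, w]) ∧ 5 ≤ |(u.1 * w.1).trace - n| ∧
      H.relIndex (Envelope u w) = 0)

open Pool.Agent.Run7.h25.TV in
theorem core {n : ℕ} (hn : 3 ≤ n) {H : Subgroup (SLZ n)} (hH : Zd H) (hF : ¬ Fi H) :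
    TransvectionDichotomy H := by
  obtain ⟨m, rfl⟩ : ∃ m, n = m + 3 := ⟨n - 3, by omega⟩
  rintro u hu w hw ⟨v, φ, hv, hφ, hφv, hum⟩ ⟨y, ψ, hy, hψ, hψy, hwm⟩
  rcases dichotomy' hH hF hu hw ⟨hv, hφ, hφv, hum⟩ ⟨hy, hψ, hψy, hwm⟩ with h | ⟨h1, h2, h3⟩
  · exact Or.inl h
  · refine Or.inr ⟨h1, ?_, h3 _ ?_⟩
    · have e : (u.1 * w.1).trace - ((m + 3 : ℕ) : ℤ) = (φ ⬝ᵥ y) * (ψ ⬝ᵥ v) := by
        rw [hum, hwm, Matrix.add_mul, Matrix.mul_add, Matrix.mul_add, Matrix.one_mul,
          Matrix.one_mul, Matrix.mul_one, vecMulVec_mul_vecMulVec, vecMulVec_smul, trace_add,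
          trace_add, trace_add, trace_one, trace_smul, trace_vecMulVec, trace_vecMulVec,
          trace_vecMulVec, dotProduct_comm v φ, dotProduct_comm y ψ, dotProduct_comm v ψ, hφv, hψy,
          Fintype.card_fin, smul_eq_mul]
        ring
      rw [e]
      exact h2
    · intro x t p q A hA
      have hA' : A.1 = 1 + vecMulVec (x • v + t • y) (p • φ + q • ψ) := hA
      have key : ∀ {c θ : Fin (m + 3) → ℤ}, c ≠ 0 → ∀ z : Fin (m + 3) → ℤ,
          (1 + vecMulVec c θ) *ᵥ z = z → θ ⬝ᵥ z = 0 := by
        intro c θ hc z hz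
        rw [add_mulVec, one_mulVec, vv_mulVec, add_eq_left] at hz
        exact (smul_eq_zero.1 hz).resolve_right hc
      have key' : ∀ {c θ : Fin (m + 3) → ℤ}, θ ≠ 0 → ∀ z : Fin (m + 3) → ℤ,
          z ᵥ* (1 + vecMulVec c θ) = z → z ⬝ᵥ c = 0 := by
        intro c θ hc z hz
        rw [vecMul_add, vecMul_one, vecMul_vecMulVec, add_eq_left] at hz
        exact (smul_eq_zero.1 hz).resolve_right hc
      refine ⟨fun z h4 h5 => ?_, fun z h4 h5 => ?_⟩
      · rw [hum] at h4
        rw [hwm] at h5
        rw [hA', add_mulVec, one_mulVec, vv_mulVec, add_dotProduct, smul_dotProduct,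
          smul_dotProduct, key hv z h4, key hy z h5, smul_zero, smul_zero, add_zero, zero_smul,
          add_zero]
      · rw [hum] at h4
        rw [hwm] at h5
        rw [hA', vecMul_add, vecMul_one, vecMul_vecMulVec, dotProduct_add, dotProduct_smul,
          dotProduct_smul, key' hφ z h4, key' hψ z h5, smul_zero, smul_zero, add_zero, zero_smul,
          add_zero]

/-- Let `n ≥ 3` and let `H` be a subgroup of `SL (n, ℤ)` which is Zariski dense and of infinite
index, or profinitely dense and not the whole group; or the profinitely dense image of a finitely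
generated residually finite group with the same finite quotients as `SL (n, ℤ)` under a homomorphism
which is not an isomorphism. Then any two transvections `u, w` in `H` either have a common nontrivial
power, or freely generate a free group, satisfy `|tr (u w) - n| ≥ 5`, and the intersection of `H`
with `Envelope u w` has infinite index in `Envelope u w`. -/
theorem result : ∀ (n : ℕ), 3 ≤ n → ∀ H : Subgroup (SLZ n),
    (ZariskiDense H → H.index = 0 → TransvectionDichotomy H) ∧
    (ProfinitelyDense H → H ≠ ⊤ → TransvectionDichotomy H) ∧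
    (∀ (Λ : Type) [Group Λ], Group.FG Λ →
      (∀ x : Λ, x ≠ 1 → ∃ K : Subgroup Λ, K.index ≠ 0 ∧ x ∉ K) →
      (∀ (Q : Type) [Group Q] [Finite Q],
        (∃ p : Λ →* Q, Function.Surjective p) ↔ (∃ p : SLZ n →* Q, Function.Surjective p)) →
      ∀ f : Λ →* SLZ n, f.range = H → ProfinitelyDense H → ¬ Function.Bijective f →
        TransvectionDichotomy H) := by
  intro n hn H
  have key : ProfinitelyDense H → H ≠ ⊤ → TransvectionDichotomy H := fun hH hne =>
    have hD := Pool.Agent.Run7.h25.TV.dn_of_profinite hH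
    core hn hD.zd fun hF => hne (hD.top hF)
  refine ⟨fun hH hi => ?_, key, ?_⟩
  · exact core hn (Pool.Agent.Run7.h25.TV.zd_of_zariski hH) fun hF =>
      Pool.Agent.Run7.h25.TV.fi_index hF hi
  · intro Λ _ hfg hRF hq f hf hH hbij
    refine key hH ?_
    rintro rfl
    apply hbij
    have hs : Function.Surjective f := MonoidHom.range_eq_top.1 hf
    exact ⟨Pool.Agent.Helper460_PR.hopf hfg hRF hq f hs, hs⟩

end Pool.Agent.Results.MP_a2a22c_al.TransvectionPairs
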